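import Pool.Agent.V11161.GPLower

set_option autoImplicit false

namespace Pool.Agent.Results.MP_4c1c99_co.PolynomialBound

open Pool.Agent.V11161.GP

/-- Every configuration covered by at most `k ≥ 1` lines with at least `290 k³` points satisfies
`GP = ⌈ONLINE / 2⌉`, so `N(k) ≤ 290 k³`; and `N(k) ≥ 2 k² - 6 k + 6` for `k ≥ 4`. -/
theorem result :
    (∀ k : ℕ, 1 ≤ k → ∀ S : Finset Pt, LC S ≤ k → 290 * k ^ 3 ≤ S.card →
      GPnum S = (onLine S + 1) / 2) ∧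
    (∀ k : ℕ, 1 ≤ k → Nk k ≤ 290 * k ^ 3) ∧
    (∀ k : ℕ, 4 ≤ k → 2 * k ^ 2 + 6 ≤ Nk k + 6 * k) := by
  refine ⟨upper, fun k hk => Nat.sInf_le (upper k hk), fun k hk => ?_⟩
  have hmem := Nat.sInf_mem (s := {n | ∀ S : Finset Pt, LC S ≤ k → n ≤ S.card →
    GPnum S = (onLine S + 1) / 2}) ⟨_, upper k (by omega)⟩
  have h1 : (Exa k).card < Nk k := by
    by_contra hcon
    push Not at hcon
    have h2 := hmem (Exa k) (LC_Exa k (by omega)) hcon
    have h3 := GP_Exa k hk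
    have h4 := onLine_Exa k hk
    omega
  rw [card_Exa] at h1
  obtain ⟨q, rfl⟩ : ∃ q, k = q + 4 := ⟨k - 4, by omega⟩
  have e1 : q + 4 - 1 = q + 3 := by omega
  have e2 : q + 4 - 2 = q + 2 := by omega
  rw [e1, e2] at h1
  nlinarith

end Pool.Agent.Results.MP_4c1c99_co.PolynomialBound
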